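import Mathlib

set_option autoImplicit false

namespace Pool.Agent.H.MP_1e5ebc_co

open Finset
open scoped Classical

noncomputable def ib (P : Prop) : ℕ := if P then 1 else 0

structure FV {V : Type} [Fintype V] (B R : V → V → Prop) (b r : ℕ) : Prop where
  bs : ∀ x y, B x y → B y x
  rs : ∀ x y, R x y → R y x
  bi : ∀ x, ¬ B x x
  ri : ∀ x, ¬ R x x
  dj : ∀ x y, B x y → ¬ R x y
  db : ∀ x, ∑ y, ib (B x y) = b
  dr : ∀ x, ∑ y, ib (R x y) = r
  fl : ∀ v, ∑ x, ∑ y, ib (x = v ∨ B v x ∨ R v x) * ib (y = v ∨ B v y ∨ R v y) * ib (R x y) + 2 ≤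
    ∑ x, ∑ y, ib (x = v ∨ B v x ∨ R v x) * ib (y = v ∨ B v y ∨ R v y) * ib (B x y)

lemma ib_card {V : Type} [Fintype V] (p : V → Prop) [DecidablePred p] :
    ∑ y, ib (p y) = #{y | p y} := by
  rw [card_filter]
  exact sum_congr rfl fun y _ => by simp [ib]

variable {V : Type} [Fintype V] {B R : V → V → Prop} {b r : ℕ}

lemma expand (h : FV B R b r) (S : V → V → Prop) (hs : ∀ x y, S x y → S y x) (hi : ∀ x, ¬ S x x)
    (hm : ∀ x y, S x y → B x y ∨ R x y) (v : V) :
    ∑ x, ∑ y, ib (x = v ∨ B v x ∨ R v x) * ib (y = v ∨ B v y ∨ R v y) * ib (S x y) =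
      2 * ∑ y, ib (S v y) + (∑ x, ∑ y, ib (B v x) * ib (B v y) * ib (S x y) +
        ∑ x, ∑ y, ib (B v x) * ib (R v y) * ib (S x y) +
        ∑ x, ∑ y, ib (R v x) * ib (B v y) * ib (S x y) +
        ∑ x, ∑ y, ib (R v x) * ib (R v y) * ib (S x y)) := by
  have c : ∀ x, ib (x = v ∨ B v x ∨ R v x) = ib (x = v) + ib (B v x) + ib (R v x) := by
    intro x
    by_cases hx : x = v
    · simp [hx, ib, h.bi, h.ri]
    · by_cases h1 : B v x
      · simp [hx, ib, h1, h.dj _ _ h1]
      · simp [hx, ib, h1]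
  have e2 : ∑ x, ∑ y, ib (x = v) * ib (y = v ∨ B v y ∨ R v y) * ib (S x y) = ∑ y, ib (S v y) := by
    rw [sum_eq_single v (fun x _ hx => by simp [hx, ib]) (by simp)]
    refine sum_congr rfl fun y _ => ?_
    by_cases h1 : S v y <;> simp [ib, h1, hm]
  have e3 : ∑ x, ∑ y, (ib (B v x) + ib (R v x)) * ib (y = v) * ib (S x y) = ∑ y, ib (S v y) := by
    refine sum_congr rfl fun x _ => ?_
    rw [sum_eq_single v (fun y _ hy => by simp [hy, ib]) (by simp)]
    by_cases h1 : S v x
    · rcases hm _ _ h1 with h2 | h2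
      · simp [ib, h1, hs _ _ h1, h2, h.dj _ _ h2]
      · simp [ib, h1, hs _ _ h1, h2, mt (h.dj _ _) (not_not.2 h2)]
    · simp [ib, h1, mt (hs _ _) h1]
  rw [two_mul]
  refine Eq.trans ?_ (congrArg₂ (· + ·) (congrArg₂ (· + ·) e2 e3) rfl)
  simp only [← sum_add_distrib, c]
  exact sum_congr rfl fun x _ => sum_congr rfl fun y _ => by ring

lemma trace (h : FV B R b r) :
    Fintype.card V * (2 * r + 2) + ∑ x, ∑ y, ib (B x y ∨ R x y) * ∑ z, ib (R x z) * ib (R y z) ≤
      Fintype.card V * (2 * b) + ∑ v, ∑ x, ∑ y, ib (B v x) * ib (B v y) * ib (B x y ∨ R x y) := by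
  have S := sum_le_sum (s := univ) fun v _ => h.fl v
  simp only [expand h R h.rs h.ri fun _ _ => Or.inr, expand h B h.bs h.bi fun _ _ => Or.inl,
    h.db, h.dr, sum_add_distrib, sum_const, card_univ, smul_eq_mul] at S
  have sy : ∀ {S : V → V → Prop}, (∀ x y, S x y → S y x) → ∀ x y, ib (S x y) = ib (S y x) :=
    fun hs x y => by rw [propext ⟨hs x y, hs y x⟩]
  have c1 : ∀ f g k : V → V → Prop, (∀ x y, k x y → k y x) →
      ∑ v, ∑ x, ∑ y, ib (f v x) * ib (g v y) * ib (k x y) =
        ∑ v, ∑ x, ∑ y, ib (g v x) * ib (f v y) * ib (k x y) := by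
    intro f g k hk
    refine sum_congr rfl fun v _ => ?_
    rw [sum_comm]
    exact sum_congr rfl fun x _ => sum_congr rfl fun y _ => by rw [sy hk y x]; ring
  have c2 : ∀ f g k : V → V → Prop, (∀ x y, f x y → f y x) →
      ∑ v, ∑ x, ∑ y, ib (f v x) * ib (g v y) * ib (k x y) =
        ∑ v, ∑ x, ∑ y, ib (f v x) * ib (k v y) * ib (g x y) := by
    intro f g k hf
    rw [sum_comm]
    exact sum_congr rfl fun x _ => sum_congr rfl fun v _ => sum_congr rfl fun y _ => by
      rw [sy hf v x]; ring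
  have m : ∀ x y, ib (B x y ∨ R x y) = ib (B x y) + ib (R x y) := fun x y => by
    by_cases h1 : B x y
    · simp [ib, h1, h.dj _ _ h1]
    · simp [ib, h1]
  rw [c1 R B R h.rs, c1 R B B h.bs, c2 B R B h.bs, c1 R R B h.bs, c2 R R B h.rs,
    c1 R B R h.rs] at S
  simp only [m, mul_add, add_mul, sum_add_distrib, mul_sum, ← mul_assoc]
  have e1 : ∀ f : V → V → Prop, ∑ x, ∑ y, ∑ z, ib (f x y) * ib (R x z) * ib (R y z) =
    ∑ v, ∑ x, ∑ y, ib (f v x) * ib (R v y) * ib (R x y) := fun f => rfl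
  rw [e1, e1]
  linarith

lemma bonf (K : Finset V) (A : V → Finset V) (L : ℕ) (hA : ∀ x, #(A x) = r)
    (hL : ∀ x ∈ K, ∀ y ∈ K, x ≠ y → #(A x ∩ A y) ≤ L) :
    #K * r ≤ #(K.biUnion A) + (#K).choose 2 * L := by
  induction K using Finset.induction_on with
  | empty => simp
  | insert a K ha ih =>
    have ih := ih fun x hx y hy => hL x (mem_insert_of_mem hx) y (mem_insert_of_mem hy)
    rw [biUnion_insert, card_insert_of_notMem ha, Nat.choose_succ_succ, Nat.choose_one_right]
    have e := card_union_add_card_inter (A a) (K.biUnion A)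
    have : #(A a ∩ K.biUnion A) ≤ #K * L := by
      rw [inter_biUnion]
      exact card_biUnion_le_card_mul _ _ _ fun x hx =>
        hL a (mem_insert_self _ _) x (mem_insert_of_mem hx) fun e => ha (e ▸ hx)
    rw [hA] at e
    nlinarith

theorem stair (h : FV B R b r) (hV : 0 < Fintype.card V) (s : ℕ) (h0 : 0 < s)
    (hs : #(SimpleGraph.turanGraph b s).edgeFinset + b ≤ r) :
    (s + 2) * r ≤ Fintype.card V + (s + 2).choose 2 * (3 * b) := by
  by_contra hc
  set c := fun x y => ∑ z, ib (R x z) * ib (R y z) with hcd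
  have cs : ∀ x y, c x y = c y x := fun x y => sum_congr rfl fun z _ => mul_comm _ _
  have T : ∀ v, ∑ x, ∑ y, ib (B v x) * ib (B v y) * ib ((B x y ∨ R x y) ∧ c v x < 3 * b ∧
      c v y < 3 * b ∧ c x y < 3 * b) ≤ 2 * #(SimpleGraph.turanGraph b s).edgeFinset := by
    intro v
    let H : SimpleGraph {x // B v x} :=
      { Adj := fun x y => (B x y ∨ R x y) ∧ c v x < 3 * b ∧ c v y < 3 * b ∧ c x y < 3 * b
        symm := ⟨fun x y e => ⟨e.1.imp (h.bs _ _) (h.rs _ _), e.2.2.1, e.2.1, cs x y ▸ e.2.2.2⟩⟩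
        loopless := ⟨fun x e => e.1.elim (h.bi _) (h.ri _)⟩ }
    have cf : H.CliqueFree (s + 1) := by
      intro K hK
      have hv : v ∉ K.map (Function.Embedding.subtype _) := by simp [h.bi]
      have cc : ∀ x y, #(univ.filter (R x) ∩ univ.filter (R y)) = c x y := by
        intro x y
        rw [← filter_and, ← ib_card]
        exact sum_congr rfl fun z _ => by by_cases h1 : R x z <;> simp [ib, h1]
      have hK1 : ∀ x ∈ K, c v x ≤ 3 * b := by
        intro x hx
        obtain ⟨y, hy, e⟩ := exists_mem_ne (s := K) (by rw [hK.2]; omega) x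
        exact (hK.1 hx hy e.symm).2.1.le
      have := bonf (insert v (K.map (Function.Embedding.subtype _))) (fun x => univ.filter (R x))
        (3 * b) (fun x => by rw [← ib_card, h.dr]) ?_
      · rw [card_insert_of_notMem hv, card_map, hK.2] at this
        exact hc (this.trans (Nat.add_le_add_right (card_le_univ _) _))
      · simp only [mem_insert, mem_map, Function.Embedding.coe_subtype, cc]
        rintro x (rfl | ⟨x, hx, rfl⟩) y (rfl | ⟨y, hy, rfl⟩) e
        · exact absurd rfl e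
        · exact hK1 y hy
        · exact cs _ _ ▸ hK1 x hx
        · exact (hK.1 hx hy fun e' => e (congrArg _ e')).2.2.2.le
    have := cf.card_edgeFinset_le
    simp only [Fintype.card_subtype, ← ib_card, h.db, ← SimpleGraph.card_edgeFinset_turanGraph]
      at this
    refine le_trans (le_of_eq ?_) (Nat.mul_le_mul_left 2 this)
    rw [← SimpleGraph.sum_degrees_eq_twice_card_edges]
    have sb : ∀ g : V → ℕ, ∑ x, ib (B v x) * g x = ∑ x : {x // B v x}, g x := fun g => by
      rw [← sum_subtype (univ.filter (B v)) (by simp), sum_filter]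
      exact sum_congr rfl fun x _ => by by_cases h1 : B v x <;> simp [ib, h1]
    simp only [mul_assoc, ← mul_sum, sb]
    refine sum_congr rfl fun x _ => ?_
    rw [ib_card, ← SimpleGraph.card_neighborFinset_eq_degree, SimpleGraph.neighborFinset_eq_filter]
  set W := ∑ x, ∑ y, ib (B x y ∨ R x y) * ib (3 * b ≤ c x y) with hW
  have w1 : ∑ v, ∑ x, ∑ y, ib (B v y) * (ib (B v x ∨ R v x) * ib (3 * b ≤ c v x)) = b * W := by
    simp only [← sum_mul, h.db, hW, mul_sum]
  have w2 : ∑ v, ∑ x, ∑ y, ib (B v x) * (ib (B v y ∨ R v y) * ib (3 * b ≤ c v y)) = b * W := by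
    rw [← w1]
    exact sum_congr rfl fun v _ => sum_comm
  have w3 : ∑ v, ∑ x, ∑ y, ib (B x v) * (ib (B x y ∨ R x y) * ib (3 * b ≤ c x y)) = b * W := by
    rw [← w1, sum_comm]
    exact sum_congr rfl fun v _ => sum_comm
  have w4 : 3 * b * W ≤ ∑ x, ∑ y, ib (B x y ∨ R x y) * c x y := by
    simp only [hW, mul_sum]
    refine sum_le_sum fun x _ => sum_le_sum fun y _ => ?_
    by_cases h1 : 3 * b ≤ c x y
    · simp only [ib, h1, if_true, mul_one]
      rw [mul_comm]
      exact Nat.mul_le_mul_left _ h1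
    · simp [ib, h1]
  have w5 : ∑ v, ∑ x, ∑ y, ib (B v x) * ib (B v y) * ib (B x y ∨ R x y) ≤
      Fintype.card V * (2 * #(SimpleGraph.turanGraph b s).edgeFinset) +
        (b * W + b * W + b * W) := by
    nth_rewrite 3 [← w3]
    nth_rewrite 2 [← w2]
    rw [← w1, ← smul_eq_mul, ← card_univ, ← sum_const]
    refine le_trans ?_ (Nat.add_le_add_right (sum_le_sum fun v _ => T v) _)
    simp only [← sum_add_distrib]
    refine sum_le_sum fun v _ => sum_le_sum fun x _ => sum_le_sum fun y _ => ?_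
    by_cases h1 : B v x <;> by_cases h2 : B v y <;> by_cases h3 : B x y ∨ R x y <;>
      simp only [ib, h1, h2, h3, h.bs, true_or, if_true, if_false, mul_zero, zero_mul, zero_le,
        true_and, mul_one, one_mul]
    split_ifs <;> omega
  have t := trace h
  have := Nat.mul_le_mul_left (Fintype.card V) hs
  change _ + ∑ x, ∑ y, ib (B x y ∨ R x y) * c x y ≤ _ at t
  nlinarith

theorem top (h : FV B R b r) (hV : 0 < Fintype.card V) (hb : 3 ≤ b) (hbr : b < r)
    (hr : 2 * r + 2 = b * (b + 1)) : (b + 1) * (r + 1) ≤ Fintype.card V := by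
  have t := trace h
  have u : ∀ v, ∑ x, ∑ y, (ib (B v x) * ib (B v y) * ib (B x y ∨ R x y) +
      ib (B v x) * ib (B v y) * ib (¬ (B x y ∨ R x y) ∧ x ≠ y)) + b = b * b := by
    intro v
    have e : b = ∑ x, ∑ y, ib (B v x) * ib (B v y) * ib (x = y) := by
      rw [← h.db v]
      refine sum_congr rfl fun x _ => ?_
      rw [sum_eq_single x (fun y _ hy => by simp [ib, hy.symm]) (by simp)]
      by_cases h1 : B v x <;> simp [ib, h1]
    nth_rewrite 1 [e]
    rw [← h.db v, sum_mul_sum, ← sum_add_distrib]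
    refine sum_congr rfl fun x _ => ?_
    rw [← sum_add_distrib]
    refine sum_congr rfl fun y _ => ?_
    rw [← mul_add, ← mul_add]
    by_cases h1 : x = y
    · simp [ib, h1, h.bi, h.ri]
    · by_cases h2 : B x y ∨ R x y <;> simp [ib, h1, h2]
  have S := sum_congr (rfl : (univ : Finset V) = univ) fun v _ => u v
  simp only [sum_add_distrib, sum_const, card_univ, smul_eq_mul] at S
  rw [hr] at t
  have z : ∑ x, ∑ y, ib (B x y ∨ R x y) * ∑ z, ib (R x z) * ib (R y z) = 0 ∧
      ∑ v, ∑ x, ∑ y, ib (B v x) * ib (B v y) * ib (¬ (B x y ∨ R x y) ∧ x ≠ y) = 0 := by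
    constructor <;> nlinarith [Nat.zero_le (∑ x, ∑ y, ib (B x y ∨ R x y) *
      ∑ z, ib (R x z) * ib (R y z)), Nat.zero_le (∑ v, ∑ x, ∑ y, ib (B v x) * ib (B v y) *
        ib (¬ (B x y ∨ R x y) ∧ x ≠ y))]
  simp only [sum_eq_zero_iff, mem_univ, forall_true_left, mul_sum] at z
  have P : ∀ x y z, B x y ∨ R x y → R x z → R y z → False := fun x y w h1 h2 h3 => by
    simpa [ib, h1, h2, h3] using z.1 x y w
  have Q : ∀ v x y, B v x → B v y → x ≠ y → B x y ∨ R x y := fun v x y h1 h2 h3 => by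
    by_contra h4
    simpa [ib, h1, h2, h3, h4] using z.2 v x y
  have cb : ∀ v, #(univ.filter (B v)) = b := fun v => by rw [← ib_card, h.db]
  have st : ∀ v w u, R v w → B u v → B u w → ∀ y, B v y → B w y := by
    have a : ∀ v w u, R v w → B u v → B u w → ∀ x, B u x → x ≠ v → x ≠ w → B v x := by
      intro v w u h1 h2 h3 x h4 h5 h6
      exact (Q u v x h2 h4 h5.symm).resolve_right fun h7 =>
        P x w v (Q u x w h4 h3 h6) (h.rs _ _ h7) (h.rs _ _ h1)
    have a2 : ∀ v w u, R v w → B u v → B u w → ∀ x y, B u x → x ≠ v → x ≠ w → B v y → ¬ B w y →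
        R y u ∧ B x y := by
      intro v w u h1 h2 h3 x y h4 h5 h6 h7 h8
      have n1 : ¬ B u y := fun h9 => h8 (a w v u (h.rs _ _ h1) h3 h2 y h9
        (fun e => h.dj _ _ (e ▸ h7) h1) fun e => h.bi _ (e ▸ h7))
      have r1 : R y u := ((Q v y u h7 (h.bs _ _ h2) fun e => h8 (e ▸ h.bs _ _ h3)).resolve_left
        fun e => n1 (h.bs _ _ e))
      refine ⟨r1, (Q v x y (a v w u h1 h2 h3 x h4 h5 h6) h7 fun e => n1 (e ▸ h4)).resolve_right
        fun e => P x u y (Or.inl (h.bs _ _ h4)) e (h.rs _ _ r1)⟩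
    intro v w u h1 h2 h3 y h4
    by_contra h5
    obtain ⟨y', h6, h7⟩ : ∃ y', B w y' ∧ ¬ B v y' := by
      by_contra hn
      push Not at hn
      have := eq_of_subset_of_card_le (s := univ.filter (B w)) (t := univ.filter (B v))
        (fun x => by simpa using hn x) (by rw [cb, cb])
      exact h5 (by simpa [h4] using (Finset.ext_iff.1 this y))
    obtain ⟨x, hx, h8⟩ := exists_mem_notMem_of_card_lt_card (s := {v, w}) (t := univ.filter (B u))
      (lt_of_le_of_lt card_le_two (by rw [cb]; omega))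
    simp only [mem_insert, mem_singleton, not_or, mem_filter, mem_univ, true_and] at hx h8
    obtain ⟨b1, b2⟩ := a2 v w u h1 h2 h3 x y hx h8.1 h8.2 h4 h5
    obtain ⟨b3, b4⟩ := a2 w v u (h.rs _ _ h1) h3 h2 x y' hx h8.2 h8.1 h6 h7
    exact P y y' u (Q x y y' b2 b4 fun e => h7 (e ▸ h4)) b1 b3
  have cr : ∀ v, #(univ.filter (R v)) = r := fun v => by rw [← ib_card, h.dr]
  have ci : ∀ w, #(insert w (univ.filter (B w))) = b + 1 := fun w => by
    rw [card_insert_of_notMem (by simp [h.bi]), cb]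
  have dj : ∀ v w w', R v w → R v w' → w ≠ w' → ∀ x, x = w ∨ B w x → x = w' ∨ B w' x → False := by
    rintro v w w' h1 h2 h3 x (rfl | h4) (h5 | h5)
    · exact h3 h5
    · exact P _ _ v (Or.inl h5) (h.rs _ _ h2) (h.rs _ _ h1)
    · exact P _ _ v (Or.inl (h5 ▸ h4)) (h.rs _ _ h1) (h.rs _ _ h2)
    · exact P _ _ v (Q x w w' (h.bs _ _ h4) (h.bs _ _ h5) h3) (h.rs _ _ h1) (h.rs _ _ h2)
  by_cases hA : ∀ w, ∃ w' u, R w w' ∧ B u w ∧ B u w'
  · choose f u hf using hA
    obtain ⟨v⟩ := Fintype.card_pos_iff.1 hV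
    have fb : ∀ w y, B (f w) y ↔ B w y := fun w y =>
      ⟨st _ _ _ (h.rs _ _ (hf w).1) (hf w).2.2 (hf w).2.1 y, st _ _ _ (hf w).1 (hf w).2.1 (hf w).2.2 y⟩
    have := card_le_univ ((univ.filter (R v)).biUnion fun w =>
      insert (f w) (insert w (univ.filter (B w))))
    rw [card_biUnion, sum_congr rfl (g := fun _ => b + 2), sum_const, cr, smul_eq_mul] at this
    · nlinarith
    · intro w _
      rw [card_insert_of_notMem, ci]
      simp only [mem_insert, mem_filter, mem_univ, true_and, not_or]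
      exact ⟨fun e => h.ri w (by simpa [e] using (hf w).1), fun e => h.dj _ _ e (hf w).1⟩
    · intro w hw w' hw' e
      simp only [coe_filter, mem_univ, true_and, Set.mem_ofPred_eq] at hw hw'
      have k : ∀ w w', R v w → R v w' → w ≠ w' → f w = f w' ∨ f w = w' ∨ B w' (f w) → False := by
        rintro w w' hw hw' e (h1 | h1 | h1)
        · exact dj v w w' hw hw' e (u w) (Or.inr (h.bs _ _ (hf w).2.1))
            (Or.inr ((fb w' _).1 (h1 ▸ h.bs _ _ (hf w).2.2)))
        · exact P w w' v (Or.inr (h1 ▸ (hf w).1)) (h.rs _ _ hw) (h.rs _ _ hw')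
        · exact P w w' v (Or.inl ((fb w _).1 (h.bs _ _ h1))) (h.rs _ _ hw) (h.rs _ _ hw')
      simp only [Function.onFun, disjoint_left, mem_insert, mem_filter, mem_univ, true_and]
      rintro x (rfl | h1) h2
      · exact k w w' hw hw' e h2
      · rcases h2 with rfl | h2
        · exact k w' w hw' hw e.symm (Or.inr h1)
        · exact dj v w w' hw hw' e x h1 h2
  · push Not at hA
    obtain ⟨v, hv⟩ := hA
    have := card_le_univ ((insert v (univ.filter (R v))).biUnion fun w =>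
      insert w (univ.filter (B w)))
    rw [card_biUnion, sum_congr rfl fun w _ => ci w, sum_const,
      card_insert_of_notMem (by simp [h.ri]), cr, smul_eq_mul, mul_comm] at this
    · exact this
    · have k : ∀ w, R v w → ∀ x, x = v ∨ B v x → x = w ∨ B w x → False := by
        rintro w hw x (rfl | h4) (h5 | h5)
        · exact h.ri _ (h5 ▸ hw)
        · exact h.dj _ _ (h.bs _ _ h5) hw
        · exact h.dj _ _ (h5 ▸ h4) hw
        · exact hv w x hw (h.bs _ _ h4) (h.bs _ _ h5)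
      intro w hw w' hw' e
      simp only [coe_insert, coe_filter, mem_univ, true_and, Set.mem_insert_iff,
        Set.mem_ofPred_eq] at hw hw'
      simp only [Function.onFun, disjoint_left, mem_insert, mem_filter, mem_univ, true_and]
      intro x h1 h2
      rcases hw with rfl | hw <;> rcases hw' with rfl | hw'
      exacts [e rfl, k _ hw' x h1 h2, k _ hw x h2 h1, dj v w w' hw hw' e x h1 h2]

theorem zb (h : FV B R b r) (hV : 0 < Fintype.card V) : ∃ z, Fintype.card V = b + r + 1 + z ∧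
    Fintype.card V * r + 2 * z * b + 2 ≤ Fintype.card V * b + 2 * z * r + z * min (z - 1) b := by
  obtain ⟨v⟩ := Fintype.card_pos_iff.1 hV
  set N := fun x => x = v ∨ B v x ∨ R v x with hN
  refine ⟨∑ x, ib (¬ N x), ?_, ?_⟩
  · rw [← h.db v, ← h.dr v, show 1 = ∑ x, ib (x = v) by simp [ib], ← card_univ, card_eq_sum_ones]
    simp only [← sum_add_distrib]
    refine sum_congr rfl fun x _ => ?_
    by_cases hx : x = v
    · simp [hN, hx, ib, h.bi, h.ri]
    · by_cases h1 : B v x
      · simp [hN, hx, ib, h1, h.dj _ _ h1]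
      · by_cases h2 : R v x <;> simp [hN, hx, ib, h1, h2]
  have e : ∀ (S : V → V → Prop) (d : ℕ), (∀ x y, S x y → S y x) → (∀ x, ∑ y, ib (S x y) = d) →
      ∑ x, ∑ y, ib (N x) * ib (N y) * ib (S x y) + 2 * (∑ x, ib (¬ N x)) * d =
        Fintype.card V * d + ∑ x, ∑ y, ib (¬ N x) * ib (¬ N y) * ib (S x y) := by
    intro S d hs hd
    have e1 : (∑ x, ib (¬ N x)) * d = ∑ x, ∑ y, ib (¬ N x) * ib (S x y) := by
      simp only [← mul_sum, hd, sum_mul]
    have e2 : (∑ x, ib (¬ N x)) * d = ∑ x, ∑ y, ib (¬ N y) * ib (S x y) := by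
      rw [e1, sum_comm]
      exact sum_congr rfl fun x _ => sum_congr rfl fun y _ => by rw [propext ⟨hs x y, hs y x⟩]
    have e3 : Fintype.card V * d = ∑ x, ∑ y, ib (S x y) := by simp [hd]
    rw [mul_assoc, two_mul, e3]
    nth_rewrite 2 [e2]
    rw [e1]
    simp only [← sum_add_distrib]
    refine sum_congr rfl fun x _ => sum_congr rfl fun y _ => ?_
    by_cases h1 : N x <;> by_cases h2 : N y <;> simp [ib, h1, h2]
  have e1 := e B b h.bs h.db
  have e2 := e R r h.rs h.dr
  have e3 : ∑ x, ∑ y, ib (¬ N x) * ib (¬ N y) * ib (B x y) ≤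
      (∑ x, ib (¬ N x)) * min (∑ x, ib (¬ N x) - 1) b := by
    rw [sum_mul]
    refine sum_le_sum fun x _ => ?_
    by_cases h1 : N x
    · simp [ib, h1]
    simp only [mul_assoc, ← mul_sum]
    refine Nat.mul_le_mul_left _ (le_min (Nat.le_sub_one_of_lt ?_) ?_)
    · refine sum_lt_sum (fun y _ => ?_) ⟨x, mem_univ _, by simp [ib, h1, h.bi]⟩
      by_cases h2 : B x y <;> simp [ib, h2]
    · rw [← h.db x]
      refine sum_le_sum fun y _ => ?_
      by_cases h2 : N y <;> simp [ib, h2]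
  have e4 := h.fl v
  change ∑ x, ∑ y, ib (N x) * ib (N y) * ib (R x y) + 2 ≤
    ∑ x, ∑ y, ib (N x) * ib (N y) * ib (B x y) at e4
  omega

end Pool.Agent.H.MP_1e5ebc_co
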