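import Mathlib
import Pool.Agent.H.MP_1e5ebc_co.Low

set_option autoImplicit false

namespace Pool.Agent.H.MP_1e5ebc_co

open Finset
open scoped Classical

/-- a `d`-regular graph on `A × J` with no edge inside a fibre -/
structure Reg {A J : Type} [Fintype A] [Fintype J] (S : A × J → A × J → Prop) (d : ℕ) : Prop where
  sy : ∀ x y, S x y → S y x
  ne : ∀ x y, S x y → x.1 ≠ y.1
  dg : ∀ x, ∑ y, ib (S x y) = d

lemma ne_sum {A : Type} [Fintype A] (a : A) : ∑ x, ib (a ≠ x) = Fintype.card A - 1 := by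
  rw [ib_card, filter_ne, card_erase_of_mem (mem_univ _), card_univ]

lemma eq_sum {A : Type} [Fintype A] (a : A) : ∑ x, ib (x = a) = 1 := by simp [ib]

lemma reg1 (k : ℕ) : Reg (fun x y : Fin (k + 1) × Unit => x.1 ≠ y.1) k :=
  ⟨fun _ _ h => h.symm, fun _ _ h => h, fun x => by simp [Fintype.sum_prod_type, -ne_eq, ne_sum]⟩

lemma reg2 (k p d : ℕ) (h1 : k * (p + 1) ≤ d) (h2 : d ≤ 2 * (k * (p + 1))) :
    ∃ S : Fin (k + 1) × Bool × Fin (p + 1) → Fin (k + 1) × Bool × Fin (p + 1) → Prop, Reg S d := by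
  obtain ⟨T, hT, hc⟩ := exists_subset_card_eq (n := d - k * (p + 1))
    (s := (univ.erase (0 : Fin (k + 1))) ×ˢ (univ : Finset (Fin (p + 1)))) (by simp; omega)
  have T0 : ∀ a l, (a, l) ∈ T → a ≠ 0 := fun a l h => by simpa using hT h
  have cT : ∀ e : Fin (k + 1) × Fin (p + 1) ≃ Fin (k + 1) × Fin (p + 1),
      ∑ x, ib (e x ∈ T) = d - k * (p + 1) := fun e => by
    rw [Equiv.sum_comp e fun x => ib (x ∈ T), ib_card, ← hc]
    simp
  refine ⟨fun x y => if x.2.1 = y.2.1 then x.1 ≠ y.1 else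
    if x.2.1 then (x.1 - y.1, x.2.2 + y.2.2) ∈ T else (y.1 - x.1, x.2.2 + y.2.2) ∈ T, ?_, ?_, ?_⟩
  · rintro ⟨a, δ, l⟩ ⟨a', δ', l'⟩
    cases δ <;> cases δ' <;> simp [eq_comm, add_comm l]
  · rintro ⟨a, δ, l⟩ ⟨a', δ', l'⟩
    cases δ <;> cases δ' <;> simp only [if_true, imp_self, Bool.false_eq_true, if_false,
      Bool.true_eq_false]
    · exact fun h => (sub_ne_zero.1 (T0 _ _ h)).symm
    · exact fun h => sub_ne_zero.1 (T0 _ _ h)
  · rintro ⟨a, δ, l⟩
    have e1 := cT ((Equiv.subLeft a).prodCongr (Equiv.addLeft l))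
    have e2 := cT ((Equiv.subRight a).prodCongr (Equiv.addLeft l))
    have e3 := ne_sum a
    simp only [Fintype.sum_prod_type, Equiv.prodCongr_apply, Prod.map_apply, Equiv.subLeft_apply,
      Equiv.subRight_apply, Equiv.coe_addLeft, Fintype.card_fin, Nat.add_sub_cancel] at e1 e2 e3
    cases δ <;>
    · simp only [Fintype.sum_prod_type, Fintype.sum_bool, if_true, Bool.false_eq_true, if_false,
        Bool.true_eq_false, sum_add_distrib, e1, e2, sum_const, card_univ, Fintype.card_fin,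
        smul_eq_mul, ← mul_sum, e3]
      rw [mul_comm (p + 1)]
      omega

theorem con {J : Type} [Fintype J] {t m b r : ℕ} {B0 : Fin (t + 2) × J → Fin (t + 2) × J → Prop}
    {R0 : Fin m × J → Fin m × J → Prop} (hB : Reg B0 b) (hR : Reg R0 r)
    (h : 2 * r + 2 + b * ((t + 2) * Fintype.card J) ≤ 2 * b + 2 * b ^ 2) :
    ∃ B R : Fin m × Fin (t + 2) × J → Fin m × Fin (t + 2) × J → Prop, FV B R b r := by
  let α : Fin m → Fin m → Fin (t + 2) := fun i j => if i < j then 1 else -1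
  let B : Fin m × Fin (t + 2) × J → Fin m × Fin (t + 2) × J → Prop :=
    fun v w => w.1 = v.1 ∧ B0 v.2 w.2
  let R : Fin m × Fin (t + 2) × J → Fin m × Fin (t + 2) × J → Prop :=
    fun v w => w.2.1 = v.2.1 + α v.1 w.1 ∧ R0 (v.1, v.2.2) (w.1, w.2.2)
  have a1 : ∀ i j, i ≠ j → α i j + α j i = 0 := fun i j e => by
    rcases lt_or_gt_of_ne e with h | h <;> simp [α, h, h.not_gt]
  have a2 : ∀ i j k, i ≠ j → i ≠ k → j ≠ k → α i j + α j k ≠ α i k := fun i j k e1 e2 e3 => by
    simp only [α]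
    split_ifs <;> first | omega | simp
  have rs : ∀ x y, R x y → R y x := fun x y e =>
    ⟨by rw [e.1, add_assoc, a1 _ _ (hR.ne _ _ e.2), add_zero], hR.sy _ _ e.2⟩
  have P : ∀ x y z, B x y ∨ R x y → R x z → R y z → False := by
    rintro x y z (e | e) h1 h2
    · exact hB.ne _ _ e.2 (add_right_cancel (h1.1.symm.trans (e.1 ▸ h2.1)))
    · refine a2 _ _ _ (hR.ne _ _ e.2) (hR.ne _ _ h1.2) (hR.ne _ _ h2.2) (add_left_cancel
        (a := x.2.1) ?_)
      rw [← h1.1, h2.1, e.1, add_assoc]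
  have db : ∀ x, ∑ y, ib (B x y) = b := fun x => by
    rw [Fintype.sum_prod_type, sum_eq_single x.1 (fun i _ hi => by simp [B, ib, hi]) (by simp),
      ← hB.dg x.2]
    simp [B]
  have dr : ∀ x, ∑ y, ib (R x y) = r := fun x => by
    rw [Fintype.sum_prod_type, ← hR.dg (x.1, x.2.2), Fintype.sum_prod_type]
    refine sum_congr rfl fun i _ => ?_
    rw [Fintype.sum_prod_type, sum_eq_single (x.2.1 + α x.1 i)
      (fun y _ hy => by simp [R, ib, hy]) (by simp)]
    simp [R]
  have bs : ∀ x y, B x y → B y x := fun x y e => ⟨e.1.symm, hB.sy _ _ e.2⟩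
  have bi : ∀ x, ¬ B x x := fun x e => hB.ne _ _ e.2 rfl
  refine ⟨B, R, bs, rs, bi, fun x e => hR.ne _ _ e.2 rfl,
    fun x y e e' => hR.ne _ _ e'.2 e.1.symm, db, dr, fun v => ?_⟩
  have two : ∀ (S : _ → _ → Prop) (d : ℕ), (∀ x y, S x y → S y x) → (∀ x, ∑ y, ib (S x y) = d) →
      ∑ x, ∑ y, (ib (x = v) * ib (S x y) + ib (y = v) * ib (S x y)) = 2 * d := by
    intro S d hs hd
    simp only [sum_add_distrib]
    rw [sum_comm (f := fun x y => ib (y = v) * ib (S x y))]
    simp only [fun x y => (propext ⟨hs x y, hs y x⟩ : S x y = S y x), ← mul_sum]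
    simp only [hd, ← sum_mul, two_mul, eq_sum, one_mul]
  have u1 : ∑ x, ∑ y, ib (x = v ∨ B v x ∨ R v x) * ib (y = v ∨ B v y ∨ R v y) * ib (R x y) ≤
      2 * r := by
    rw [← two R r rs dr]
    refine sum_le_sum fun x _ => sum_le_sum fun y _ => ?_
    by_cases h1 : R x y
    swap
    · simp [ib, h1]
    by_cases h2 : x = v
    · simp only [ib, h1, h2, true_or, if_true]
      split_ifs <;> simp
    by_cases h3 : y = v
    · simp only [ib, h1, h3, true_or, if_true]
      split_ifs <;> simp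
    by_cases h4 : B v x ∨ R v x
    swap
    · simp [ib, h2, h4]
    by_cases h5 : B v y ∨ R v y
    swap
    · simp [ib, h3, h5]
    exfalso
    rcases h4 with h4 | h4
    · rcases h5 with h5 | h5
      · exact hR.ne _ _ h1.2 (h4.1.trans h5.1.symm)
      · exact P v x y (Or.inl h4) h5 h1
    · exact P v y x h5 h4 (rs _ _ h1)
  have u2 : ∀ x, B v x → 2 * b ≤ ∑ y, ib (B v y) * ib (B x y) + (t + 2) * Fintype.card J := by
    intro x hx
    have : ∑ y : Fin m × Fin (t + 2) × J, ib (y.1 = v.1) = (t + 2) * Fintype.card J := by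
      rw [Fintype.sum_prod_type]
      simp [← mul_sum, eq_sum]
    rw [← this, two_mul]
    nth_rewrite 2 [← db x]
    rw [← db v, ← sum_add_distrib, ← sum_add_distrib]
    refine sum_le_sum fun y _ => ?_
    by_cases h1 : B v y
    · by_cases h2 : B x y <;> simp [ib, h1, h2, h1.1]
    · by_cases h2 : B x y
      · simp [ib, h1, h2, h2.1.trans hx.1]
      · simp [ib, h1, h2]
  have u3 : b * (2 * b) ≤ ∑ x, ∑ y, ib (B v x) * (ib (B v y) * ib (B x y)) +
      b * ((t + 2) * Fintype.card J) := by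
    nth_rewrite 1 [← db v]
    nth_rewrite 2 [← db v]
    simp only [← mul_sum, sum_mul, ← sum_add_distrib, ← mul_add]
    refine sum_le_sum fun x _ => ?_
    by_cases hx : B v x
    · exact Nat.mul_le_mul_left _ (u2 x hx)
    · simp [ib, hx]
  have u4 : 2 * b + ∑ x, ∑ y, ib (B v x) * (ib (B v y) * ib (B x y)) ≤
      ∑ x, ∑ y, ib (x = v ∨ B v x ∨ R v x) * ib (y = v ∨ B v y ∨ R v y) * ib (B x y) := by
    rw [← two B b bs db]
    simp only [← sum_add_distrib]
    refine sum_le_sum fun x _ => sum_le_sum fun y _ => ?_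
    by_cases h1 : B x y
    swap
    · simp [ib, h1]
    by_cases h2 : x = v
    · subst h2
      simp [ib, h1, bi, show y ≠ x from fun e => bi _ (e ▸ h1)]
    by_cases h3 : y = v
    · subst h3
      simp [ib, h1, bi, bs _ _ h1, h2]
    by_cases h4 : B v x <;> by_cases h5 : B v y <;> simp [ib, h2, h3, h4, h5]
  nlinarith

end Pool.Agent.H.MP_1e5ebc_co
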